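import Mathlib

/-!
# MP_4c442e_co, Q1: the modified Erdős–Ginzburg–Ziv constant of `(ℤ/2^k)^d`
-/

namespace Pool.Agent.Results.MP_4c442e_co.ModifiedEGZ

open Multiset

variable {d : ℕ}

/-- class modulo `2` of an integer vector -/
def par (x : Fin d → ℤ) : Fin d → ZMod 2 := fun i => (x i : ZMod 2)

/-- `S` has a subsequence of length `2^k` whose sum is `0` modulo `2^k` -/
def ZS (k : ℕ) (S : Multiset (Fin d → ℤ)) : Prop :=
  ∃ T ≤ S, card T = 2 ^ k ∧ ∀ i, (2 ^ k : ℤ) ∣ T.sum i

/-- the half sum of a pair -/
def hf (q : (Fin d → ℤ) × (Fin d → ℤ)) : Fin d → ℤ := fun i => (q.1 i + q.2 i) / 2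

lemma par_iff {x y : Fin d → ℤ} : par x = par y ↔ ∀ i, (2 : ℤ) ∣ x i - y i := by
  unfold par
  rw [funext_iff]
  apply forall_congr'
  intro i
  rw [← sub_eq_zero, ← Int.cast_sub, ZMod.intCast_zmod_eq_zero_iff_dvd]
  rfl

lemma two_hf {q : (Fin d → ℤ) × (Fin d → ℤ)} (h : par q.1 = par q.2) (i : Fin d) :
    2 * hf q i = q.1 i + q.2 i := by
  have h1 := par_iff.mp h i
  unfold hf
  omega

lemma exists_le_map {α β : Type} (f : α → β) (Q : Multiset α) (T : Multiset β)
    (h : T ≤ Q.map f) : ∃ Q₀ ≤ Q, Q₀.map f = T := by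
  induction Q using Quotient.inductionOn with
  | _ Q =>
    induction T using Quotient.inductionOn with
    | _ T =>
      simp only [Multiset.quot_mk_to_coe, Multiset.map_coe, Multiset.coe_le] at h
      obtain ⟨l, hl, hl'⟩ := h
      obtain ⟨l', h1, h2⟩ := List.sublist_map_iff.mp hl'
      refine ⟨(l' : Multiset α), ?_, ?_⟩
      · simp only [Multiset.quot_mk_to_coe, Multiset.coe_le]
        exact h1.subperm
      · simp only [Multiset.quot_mk_to_coe, Multiset.map_coe, Multiset.coe_eq_coe]
        rw [← h2]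
        exact hl

lemma exists_sub_card {α : Type} (S : Multiset α) (n : ℕ) (h : n ≤ card S) :
    ∃ T ≤ S, card T = n := by
  induction S using Quotient.inductionOn with
  | _ S =>
    simp only [Multiset.quot_mk_to_coe, Multiset.coe_card] at h
    refine ⟨(S.take n : Multiset α), ?_, ?_⟩
    · simp only [Multiset.quot_mk_to_coe, Multiset.coe_le]
      exact (List.take_sublist n S).subperm
    · simp only [Multiset.coe_card, List.length_take]
      omega

/-- pair up the elements of equal class -/
lemma pairing (R : Multiset (Fin d → ℤ)) : ∃ (Q : Multiset ((Fin d → ℤ) × (Fin d → ℤ)))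
    (L : Multiset (Fin d → ℤ)), R = Q.map Prod.fst + Q.map Prod.snd + L ∧
      (∀ q ∈ Q, par q.1 = par q.2) ∧ (L.map par).Nodup := by
  induction R using Multiset.induction with
  | empty => exact ⟨0, 0, by simp, by simp, by simp⟩
  | cons x R ih =>
    obtain ⟨Q, L, hR, hQ, hL⟩ := ih
    by_cases hx : par x ∈ L.map par
    · obtain ⟨y, hy, hxy⟩ := Multiset.mem_map.mp hx
      obtain ⟨L', rfl⟩ := Multiset.exists_cons_of_mem hy
      refine ⟨(x, y) ::ₘ Q, L', ?_, ?_, ?_⟩
      · rw [hR]
        simp only [Multiset.map_cons, Multiset.cons_add, Multiset.add_cons]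
        exact Multiset.cons_swap _ _ _
      · intro q hq
        rcases Multiset.mem_cons.mp hq with rfl | hq
        · exact hxy.symm
        · exact hQ q hq
      · rw [Multiset.map_cons, Multiset.nodup_cons] at hL
        exact hL.2
    · refine ⟨Q, x ::ₘ L, ?_, hQ, ?_⟩
      · rw [hR, Multiset.add_cons]
      · rw [Multiset.map_cons, Multiset.nodup_cons]
        exact ⟨hx, hL⟩

lemma card_le_of_nodup (L : Multiset (Fin d → ℤ)) (h : (L.map par).Nodup) : card L ≤ 2 ^ d := by
  have h1 := Multiset.toFinset_card_of_nodup h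
  have h2 := Finset.card_le_univ (L.map par).toFinset
  rw [h1, Multiset.card_map] at h2
  simpa [ZMod.card] using h2

lemma lift {k : ℕ} (Q : Multiset ((Fin d → ℤ) × (Fin d → ℤ))) (hQ : ∀ q ∈ Q, par q.1 = par q.2)
    (h : ZS k (Q.map hf)) : ZS (k + 1) (Q.map Prod.fst + Q.map Prod.snd) := by
  obtain ⟨T, hT, hc, hs⟩ := h
  obtain ⟨Q₀, hQ₀, rfl⟩ := exists_le_map hf Q T hT
  refine ⟨Q₀.map Prod.fst + Q₀.map Prod.snd, add_le_add (Multiset.map_le_map hQ₀)
    (Multiset.map_le_map hQ₀), ?_, ?_⟩
  · rw [Multiset.card_map] at hc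
    rw [Multiset.card_add, Multiset.card_map, Multiset.card_map, hc, pow_succ]
    ring
  · intro i
    have key : (Q₀.map Prod.fst + Q₀.map Prod.snd).sum i = 2 * (Q₀.map hf).sum i := by
      have : ∀ Q : Multiset ((Fin d → ℤ) × (Fin d → ℤ)), (∀ q ∈ Q, par q.1 = par q.2) →
          (Q.map Prod.fst + Q.map Prod.snd).sum i = 2 * (Q.map hf).sum i := by
        intro Q
        induction Q using Multiset.induction with
        | empty => intro _; simp
        | cons q Q ih =>
          intro h
          have h1 := ih (fun q hq => h q (Multiset.mem_cons_of_mem hq))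
          have h2 := two_hf (h q (Multiset.mem_cons_self _ _)) i
          simp only [Multiset.map_cons, Multiset.sum_add, Multiset.sum_cons, Pi.add_apply] at h1 ⊢
          linarith
      exact this Q₀ (fun q hq => hQ q (Multiset.mem_of_le hQ₀ hq))
    rw [key, pow_succ, mul_comm]
    exact mul_dvd_mul_left 2 (hs i)

/-- Harborth's upper bound for powers of two -/
lemma HB : ∀ (k : ℕ) (S : Multiset (Fin d → ℤ)), (2 ^ k - 1) * 2 ^ d + 1 ≤ card S → ZS k S := by
  intro k
  induction k with
  | zero =>
    intro S hS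
    have : 0 < card S := by omega
    obtain ⟨x, hx⟩ := Multiset.card_pos_iff_exists_mem.mp this
    exact ⟨{x}, Multiset.singleton_le.mpr hx, by simp, by simp⟩
  | succ k ih =>
    intro S hS
    obtain ⟨Q, L, hR, hQ, hL⟩ := pairing S
    have h1 := card_le_of_nodup L hL
    have h2 : card S = 2 * card Q + card L := by
      rw [hR]; simp only [Multiset.card_add, Multiset.card_map]; ring
    have h3 : (2 ^ (k + 1) - 1) * 2 ^ d = 2 * ((2 ^ k - 1) * 2 ^ d) + 2 ^ d := by
      have := Nat.one_le_two_pow (n := k)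
      obtain ⟨m, hm⟩ := Nat.exists_eq_add_of_le this
      rw [pow_succ, hm, show (1 + m) * 2 - 1 = 2 * m + 1 by omega, show 1 + m - 1 = m by omega]
      ring
    have h4 : ZS k (Q.map hf) := by
      apply ih
      rw [Multiset.card_map]
      omega
    obtain ⟨T, hT, hT'⟩ := lift Q hQ h4
    refine ⟨T, hT.trans ?_, hT'⟩
    rw [hR]
    exact Multiset.le_add_right _ _

/-- the structure of extremal sequences -/
def Struct (k : ℕ) (S : Multiset (Fin d → ℤ)) : Prop :=
  (∀ x ∈ S, ∀ y ∈ S, par x = par y → ∀ i, (2 ^ k : ℤ) ∣ x i - y i) ∧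
    ∀ c, (S.map par).count c = 2 ^ k - 1

lemma counts (k : ℕ) (S : Multiset (Fin d → ℤ)) (hS : card S = (2 ^ k - 1) * 2 ^ d)
    (hno : ¬ ZS k S)
    (h1 : ∀ x ∈ S, ∀ y ∈ S, par x = par y → ∀ i, (2 ^ k : ℤ) ∣ x i - y i) :
    ∀ c, (S.map par).count c = 2 ^ k - 1 := by
  classical
  have hle : ∀ c, (S.map par).count c ≤ 2 ^ k - 1 := by
    intro c
    by_contra hcon
    push Not at hcon
    apply hno
    rw [Multiset.count_map] at hcon
    have h2 : 2 ^ k ≤ card (S.filter (fun a => c = par a)) := by omega
    obtain ⟨T, hT, hc⟩ := exists_sub_card _ _ h2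
    refine ⟨T, hT.trans (Multiset.filter_le _ _), hc, ?_⟩
    intro i
    have hpos : 0 < card T := by rw [hc]; positivity
    obtain ⟨x, hx⟩ := Multiset.card_pos_iff_exists_mem.mp hpos
    have hx' := Multiset.mem_filter.mp (Multiset.mem_of_le hT hx)
    have key : ∀ T' : Multiset (Fin d → ℤ), (∀ y ∈ T', (2 ^ k : ℤ) ∣ y i - x i) →
        (2 ^ k : ℤ) ∣ T'.sum i - card T' * x i := by
      intro T'
      induction T' using Multiset.induction with
      | empty => intro _; simp
      | cons y T' ih =>
        intro h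
        have e1 := ih (fun z hz => h z (Multiset.mem_cons_of_mem hz))
        have e2 := h y (Multiset.mem_cons_self _ _)
        have e3 : (y ::ₘ T').sum i - (card (y ::ₘ T') : ℤ) * x i
            = (y i - x i) + (T'.sum i - card T' * x i) := by
          rw [Multiset.sum_cons, Multiset.card_cons, Pi.add_apply]
          push_cast
          ring
        rw [e3]
        exact dvd_add e2 e1
    have h3 := key T (fun y hy => by
      have hy' := Multiset.mem_filter.mp (Multiset.mem_of_le hT hy)
      exact h1 y hy'.1 x hx'.1 (hy'.2.symm.trans hx'.2) i)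
    have h4 : T.sum i = (T.sum i - card T * x i) + 2 ^ k * x i := by
      rw [hc]; push_cast; ring
    rw [h4]
    exact dvd_add h3 (Dvd.intro _ rfl)
  have hsum : ∑ c : Fin d → ZMod 2, (S.map par).count c = (2 ^ k - 1) * 2 ^ d := by
    rw [Multiset.sum_count_eq_card (fun a _ => Finset.mem_univ a), Multiset.card_map, hS]
  have hsum' : ∑ _c : Fin d → ZMod 2, (2 ^ k - 1) = (2 ^ k - 1) * 2 ^ d := by
    rw [Finset.sum_const, Finset.card_univ]
    simp [ZMod.card, mul_comm]
  intro c
  have h2 := (Finset.sum_eq_sum_iff_of_le (fun c _ => hle c)).mp (hsum.trans hsum'.symm)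
  exact h2 c (Finset.mem_univ c)

lemma structure_thm : ∀ (k : ℕ), 1 ≤ k → ∀ S : Multiset (Fin d → ℤ),
    card S = (2 ^ k - 1) * 2 ^ d → ¬ ZS k S → Struct k S := by
  intro k hk
  induction k, hk using Nat.le_induction with
  | base =>
    intro S hS hno
    have h1 : ∀ x ∈ S, ∀ y ∈ S, par x = par y → ∀ i, (2 ^ 1 : ℤ) ∣ x i - y i := by
      intro x _ y _ h i
      rw [pow_one]
      exact par_iff.mp h i
    exact ⟨h1, counts 1 S hS hno h1⟩
  | succ k hk ih =>
    intro S hS hno
    have hk1 : (2 ^ (k + 1) - 1) * 2 ^ d = 2 * ((2 ^ k - 1) * 2 ^ d) + 2 ^ d := by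
      have := Nat.one_le_two_pow (n := k)
      obtain ⟨m, hm⟩ := Nat.exists_eq_add_of_le this
      rw [pow_succ, hm, show (1 + m) * 2 - 1 = 2 * m + 1 by omega, show 1 + m - 1 = m by omega]
      ring
    have h1 : ∀ x ∈ S, ∀ y ∈ S, par x = par y → ∀ i, (2 ^ (k + 1) : ℤ) ∣ x i - y i := by
      intro x hx y hy hxy
      by_cases hne : x = y
      · subst hne; intro i; simp
      obtain ⟨S₁, rfl⟩ := Multiset.exists_cons_of_mem hx
      have hy₁ : y ∈ S₁ := by
        rcases Multiset.mem_cons.mp hy with h | h
        · exact absurd h.symm hne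
        · exact h
      obtain ⟨S₂, rfl⟩ := Multiset.exists_cons_of_mem hy₁
      obtain ⟨Q, L, hR, hQ, hL⟩ := pairing S₂
      have hLc := card_le_of_nodup L hL
      have hcard : 2 * (card Q + 1) + card L = (2 ^ (k + 1) - 1) * 2 ^ d := by
        rw [← hS, hR]
        simp only [Multiset.card_cons, Multiset.card_add, Multiset.card_map]
        ring
      -- the pairs cannot be too many
      have hno' : ¬ ZS k (((x, y) ::ₘ Q).map hf) := by
        intro h
        have hQ' : ∀ q ∈ (x, y) ::ₘ Q, par q.1 = par q.2 := by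
          intro q hq
          rcases Multiset.mem_cons.mp hq with rfl | hq
          · exact hxy
          · exact hQ q hq
        obtain ⟨T, hT, hT'⟩ := lift _ hQ' h
        apply hno
        refine ⟨T, hT.trans ?_, hT'⟩
        rw [hR]
        simp only [Multiset.map_cons, Multiset.cons_add, Multiset.add_cons]
        rw [Multiset.cons_swap]
        exact Multiset.cons_le_cons _ (Multiset.cons_le_cons _ (Multiset.le_add_right _ _))
      have hm : card Q + 1 ≤ (2 ^ k - 1) * 2 ^ d := by
        by_contra hcon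
        push Not at hcon
        apply hno'
        apply HB
        rw [Multiset.card_map, Multiset.card_cons]
        omega
      have hLcard : card L = 2 ^ d := by omega
      have hQcard : card Q + 1 = (2 ^ k - 1) * 2 ^ d := by omega
      -- a third element of the same class
      have hz : par x ∈ L.map par := by
        have h2 := Multiset.toFinset_card_of_nodup hL
        rw [Multiset.card_map, hLcard] at h2
        have h3 : (L.map par).toFinset = Finset.univ := by
          apply Finset.eq_univ_of_card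
          rw [h2]
          simp [ZMod.card]
        rw [← Multiset.mem_toFinset, h3]
        exact Finset.mem_univ _
      obtain ⟨z, hzL, hzx⟩ := Multiset.mem_map.mp hz
      obtain ⟨L', rfl⟩ := Multiset.exists_cons_of_mem hzL
      -- the two pairings
      have hA : ∀ u v : Fin d → ℤ, par z = par u → (z ::ₘ u ::ₘ v ::ₘ (Q.map Prod.fst +
          Q.map Prod.snd + L')) = x ::ₘ y ::ₘ S₂ → Struct k (((z, u) ::ₘ Q).map hf) := by
        intro u v hzu he
        apply ih
        · rw [Multiset.card_map, Multiset.card_cons]; exact hQcard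
        · intro h
          have hQ' : ∀ q ∈ (z, u) ::ₘ Q, par q.1 = par q.2 := by
            intro q hq
            rcases Multiset.mem_cons.mp hq with rfl | hq
            · exact hzu
            · exact hQ q hq
          obtain ⟨T, hT, hT'⟩ := lift _ hQ' h
          apply hno
          refine ⟨T, hT.trans ?_, hT'⟩
          rw [← he]
          simp only [Multiset.map_cons, Multiset.cons_add, Multiset.add_cons]
          rw [Multiset.cons_swap]
          apply Multiset.cons_le_cons
          apply Multiset.cons_le_cons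
          exact (Multiset.le_add_right _ _).trans (Multiset.le_cons_self _ _)
      have e1 : (z ::ₘ x ::ₘ y ::ₘ (Q.map Prod.fst + Q.map Prod.snd + L')) = x ::ₘ y ::ₘ S₂ := by
        rw [hR, Multiset.add_cons, Multiset.cons_swap z x, Multiset.cons_swap z y]
      have e2 : (z ::ₘ y ::ₘ x ::ₘ (Q.map Prod.fst + Q.map Prod.snd + L')) = x ::ₘ y ::ₘ S₂ := by
        rw [← e1, Multiset.cons_swap y x]
      have hSA := hA x y hzx e1
      have hSB := hA y x (hzx.trans hxy) e2
      have hzy : par z = par y := hzx.trans hxy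
      -- the classes agree
      have hclass : par (hf (z, x)) = par (hf (z, y)) := by
        by_contra hcon
        have h2 := hSA.2 (par (hf (z, x)))
        have h3 := hSB.2 (par (hf (z, x)))
        rw [Multiset.map_cons, Multiset.map_cons, Multiset.count_cons_self] at h2
        rw [Multiset.map_cons, Multiset.map_cons, Multiset.count_cons_of_ne hcon] at h3
        omega
      have hcong : ∀ i, (2 ^ k : ℤ) ∣ hf (z, x) i - hf (z, y) i := by
        rcases Nat.eq_or_lt_of_le hk with hk' | hk'
        · rw [← hk', pow_one]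
          exact par_iff.mp hclass
        · have h2 := hSA.2 (par (hf (z, x)))
          rw [Multiset.map_cons, Multiset.map_cons, Multiset.count_cons_self] at h2
          have h3 : 4 ≤ 2 ^ k := by
            calc 4 = 2 ^ 2 := by norm_num
              _ ≤ 2 ^ k := Nat.pow_le_pow_right (by norm_num) hk'
          have h4 : 0 < ((Q.map hf).map par).count (par (hf (z, x))) := by omega
          obtain ⟨w, hw, hw'⟩ := Multiset.mem_map.mp (Multiset.count_pos.mp h4)
          intro i
          have h5 := hSA.1 w (by rw [Multiset.map_cons]; exact Multiset.mem_cons_of_mem hw)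
            (hf (z, x)) (by rw [Multiset.map_cons]; exact Multiset.mem_cons_self _ _) hw' i
          have h6 := hSB.1 w (by rw [Multiset.map_cons]; exact Multiset.mem_cons_of_mem hw)
            (hf (z, y)) (by rw [Multiset.map_cons]; exact Multiset.mem_cons_self _ _)
            (hw'.trans hclass) i
          have h7 : hf (z, x) i - hf (z, y) i = (w i - hf (z, y) i) - (w i - hf (z, x) i) := by
            ring
          rw [h7]
          exact dvd_sub h6 h5
      intro i
      have h2 := two_hf (q := (z, x)) hzx i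
      have h3 := two_hf (q := (z, y)) hzy i
      simp only at h2 h3
      have h4 : x i - y i = 2 * (hf (z, x) i - hf (z, y) i) := by linarith
      rw [h4, pow_succ, mul_comm]
      exact mul_dvd_mul_left 2 (hcong i)
    exact ⟨h1, counts (k + 1) S hS hno h1⟩

/-- an extremal sequence in which elements of equal class are equal and whose sum is `0` modulo
`2^k` has a zero-sum subsequence of length `2^k` when `d ≤ k` -/
lemma extremal_sum {k : ℕ} (hd : 1 ≤ d) (hdk : d ≤ k) (W : Multiset (Fin d → ℤ))
    (hW : card W = (2 ^ k - 1) * 2 ^ d) (heq : ∀ x ∈ W, ∀ y ∈ W,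
      (∀ i, (2 ^ k : ℤ) ∣ x i - y i) → x = y) (hsum : ∀ i, (2 ^ k : ℤ) ∣ W.sum i) : ZS k W := by
  classical
  by_contra hno
  obtain ⟨h1, h2⟩ := structure_thm k (by omega) W hW hno
  have h2k : 2 ≤ 2 ^ k := by
    calc 2 = 2 ^ 1 := by norm_num
      _ ≤ 2 ^ k := Nat.pow_le_pow_right (by norm_num) (by omega)
  have hex : ∀ c : Fin d → ZMod 2, ∃ x ∈ W, par x = c := by
    intro c
    have : 0 < (W.map par).count c := by rw [h2]; omega
    obtain ⟨x, hx, hxc⟩ := Multiset.mem_map.mp (Multiset.count_pos.mp this)
    exact ⟨x, hx, hxc⟩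
  choose x hxW hxc using hex
  have hxinj : Function.Injective x := fun c c' h => by rw [← hxc c, ← hxc c', h]
  have hU : W = (2 ^ k - 1) • (Finset.univ.val.map x) := by
    rw [Multiset.ext]
    intro a
    rw [Multiset.count_nsmul]
    by_cases ha : a ∈ W
    · have hax : a = x (par a) := heq a ha _ (hxW _) (h1 a ha _ (hxW _) (hxc _).symm)
      have e1 : W.count a = 2 ^ k - 1 := by
        rw [← h2 (par a), Multiset.count_map]
        have e2 : ∀ b ∈ W, (par a = par b ↔ a = b) := by
          intro b hb
          constructor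
          · intro h; exact heq a ha b hb (h1 a ha b hb h)
          · intro h; rw [h]
        rw [Multiset.filter_congr e2, Multiset.count_eq_card_filter_eq]
      have e3 : (Finset.univ.val.map x).count a = 1 := by
        rw [hax, Multiset.count_map_eq_count' x _ hxinj]
        exact Multiset.count_eq_one_of_mem Finset.univ.nodup (Finset.mem_univ_val _)
      rw [e1, e3, mul_one]
    · rw [Multiset.count_eq_zero_of_notMem ha, Multiset.count_eq_zero_of_notMem, mul_zero]
      intro h
      obtain ⟨c, -, hc⟩ := Multiset.mem_map.mp h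
      exact ha (hc ▸ hxW c)
  have hUc : card (Finset.univ.val.map x) = 2 ^ d := by
    rw [Multiset.card_map]
    show Finset.card (Finset.univ : Finset (Fin d → ZMod 2)) = _
    rw [Finset.card_univ]
    simp [ZMod.card]
  have hUs : ∀ i, (2 ^ k : ℤ) ∣ (Finset.univ.val.map x).sum i := by
    intro i
    have e1 := hsum i
    rw [hU, Multiset.sum_nsmul, Pi.smul_apply, nsmul_eq_mul, Nat.cast_sub (by omega)] at e1
    have e2 : (Finset.univ.val.map x).sum i = 2 ^ k * (Finset.univ.val.map x).sum i
        - (((2 ^ k : ℕ) : ℤ) - ((1 : ℕ) : ℤ)) * (Finset.univ.val.map x).sum i := by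
      push_cast; ring
    rw [e2]
    exact dvd_sub (Dvd.intro _ rfl) e1
  apply hno
  refine ⟨2 ^ (k - d) • (Finset.univ.val.map x), ?_, ?_, ?_⟩
  · rw [hU]
    apply nsmul_le_nsmul_left (Multiset.zero_le _)
    have : 2 ^ (k - d) * 2 ≤ 2 ^ k := by
      rw [← pow_succ]
      exact Nat.pow_le_pow_right (by norm_num) (by omega)
    omega
  · rw [Multiset.card_nsmul, hUc, ← pow_add, Nat.sub_add_cancel hdk]
  · intro i
    rw [Multiset.sum_nsmul, Pi.smul_apply]
    exact Dvd.dvd.mul_left (hUs i) _

/-- lift to integer vectors -/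
def lft {k : ℕ} (x : Fin d → ZMod (2 ^ k)) : Fin d → ℤ := fun i => ((x i).val : ℤ)

lemma lft_cast {k : ℕ} (x : Fin d → ZMod (2 ^ k)) (i : Fin d) :
    ((lft x i : ℤ) : ZMod (2 ^ k)) = x i := by
  unfold lft
  rw [Int.cast_natCast, ZMod.natCast_zmod_val]

lemma lft_sum {k : ℕ} (T : Multiset (Fin d → ZMod (2 ^ k))) (i : Fin d) :
    (((T.map lft).sum i : ℤ) : ZMod (2 ^ k)) = T.sum i := by
  induction T using Multiset.induction with
  | empty => simp
  | cons x T ih =>
    rw [Multiset.map_cons, Multiset.sum_cons, Multiset.sum_cons, Pi.add_apply, Pi.add_apply,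
      Int.cast_add, ih, lft_cast]

lemma dvd_iff {k : ℕ} (a : ℤ) : (2 ^ k : ℤ) ∣ a ↔ (a : ZMod (2 ^ k)) = 0 := by
  rw [ZMod.intCast_zmod_eq_zero_iff_dvd]
  push_cast
  rfl

lemma ZS_lft {k : ℕ} (S : Multiset (Fin d → ZMod (2 ^ k))) (h : ZS k (S.map lft)) :
    ∃ T ≤ S, card T = 2 ^ k ∧ T.sum = 0 := by
  obtain ⟨T', hT', hc, hs⟩ := h
  obtain ⟨T, hT, rfl⟩ := exists_le_map lft S T' hT'
  refine ⟨T, hT, by rwa [Multiset.card_map] at hc, ?_⟩
  funext i
  rw [← lft_sum]
  exact (dvd_iff _).mp (hs i)

/-! ### lower bounds -/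

/-- the `0/1` vector -/
def e {k : ℕ} (b : Fin d → Bool) : Fin d → ZMod (2 ^ k) := fun i => if b i then 1 else 0

/-- `{0,1}^d`, each vector `2^k - 1` times -/
def S0 (d k : ℕ) : Multiset (Fin d → ZMod (2 ^ k)) :=
  ((2 ^ k - 1) • (Finset.univ.val : Multiset (Fin d → Bool))).map e

lemma card_S0 (d k : ℕ) : card (S0 d k) = (2 ^ k - 1) * 2 ^ d := by
  unfold S0
  rw [Multiset.card_map, Multiset.card_nsmul]
  congr 1
  show Finset.card (Finset.univ : Finset (Fin d → Bool)) = _
  rw [Finset.card_univ]
  simp

lemma no_sub (d k : ℕ) (T : Multiset (Fin d → ZMod (2 ^ k))) (hT : T ≤ S0 d k)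
    (hc : card T = 2 ^ k) : T.sum ≠ 0 := by
  classical
  intro hs
  obtain ⟨B, hB, rfl⟩ := exists_le_map e _ T hT
  rw [Multiset.card_map] at hc
  -- all elements of `B` agree in every coordinate
  have hcoord : ∀ i : Fin d, (∀ b ∈ B, b i = true) ∨ (∀ b ∈ B, b i = false) := by
    intro i
    have h1 : ∀ B : Multiset (Fin d → Bool), (B.map (e (k := k))).sum i
        = ((card (B.filter (fun b => b i = true)) : ℕ) : ZMod (2 ^ k)) := by
      intro B
      induction B using Multiset.induction with
      | empty => simp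
      | cons b B ih =>
        rw [Multiset.map_cons, Multiset.sum_cons, Pi.add_apply, ih]
        by_cases hb : b i = true
        · have h7 := Multiset.filter_cons_of_pos (p := fun b : Fin d → Bool => b i = true)
            (a := b) B hb
          rw [h7, Multiset.card_cons]
          simp only [e, hb, if_true]
          push_cast
          ring
        · have h7 := Multiset.filter_cons_of_neg (p := fun b : Fin d → Bool => b i = true)
            (a := b) B hb
          rw [h7]
          simp [e, hb]
    have h2 := h1 B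
    rw [hs, Pi.zero_apply] at h2
    have h3 : 2 ^ k ∣ card (B.filter (fun b => b i = true)) :=
      (ZMod.natCast_eq_zero_iff _ _).mp h2.symm
    have h4 : card (B.filter (fun b => b i = true)) ≤ card B :=
      Multiset.card_le_card (Multiset.filter_le _ _)
    rcases Nat.eq_zero_or_pos (card (B.filter (fun b => b i = true))) with h0 | h0
    · right
      intro b hb
      by_contra hcon
      have hb' : b ∈ B.filter (fun b => b i = true) :=
        Multiset.mem_filter.mpr ⟨hb, by simpa using hcon⟩
      rw [Multiset.card_eq_zero] at h0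
      rw [h0] at hb'
      simp at hb'
    · left
      have h5 := Nat.le_of_dvd h0 h3
      have h6 : B.filter (fun b => b i = true) = B :=
        Multiset.eq_of_le_of_card_le (Multiset.filter_le _ _) (by omega)
      intro b hb
      rw [← h6] at hb
      exact (Multiset.mem_filter.mp hb).2
  have hpos : 0 < card B := by rw [hc]; positivity
  obtain ⟨b0, hb0⟩ := Multiset.card_pos_iff_exists_mem.mp hpos
  have hall : ∀ b ∈ B, b0 = b := by
    intro b hb
    funext i
    rcases hcoord i with h | h
    · rw [h b hb, h b0 hb0]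
    · rw [h b hb, h b0 hb0]
  have h1 : B.count b0 = 2 ^ k := by
    rw [← hc]
    exact Multiset.count_eq_card.mpr hall
  have h2 := Multiset.le_iff_count.mp hB b0
  rw [Multiset.count_nsmul, h1] at h2
  have h3 : Multiset.count b0 (Finset.univ.val : Multiset (Fin d → Bool)) ≤ 1 :=
    Multiset.nodup_iff_count_le_one.mp Finset.univ.nodup b0
  have h4 : (2 ^ k - 1) * Multiset.count b0 (Finset.univ.val : Multiset (Fin d → Bool))
      ≤ (2 ^ k - 1) * 1 := Nat.mul_le_mul_left _ h3
  have h5 := Nat.one_le_two_pow (n := k)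
  omega

/-- translates of subsequences have no zero-sum subsequence of length `2^k` either -/
lemma no_sub_shift (d k : ℕ) (S : Multiset (Fin d → ZMod (2 ^ k))) (hS : S ≤ S0 d k)
    (v : Fin d → ZMod (2 ^ k)) (T : Multiset (Fin d → ZMod (2 ^ k)))
    (hT : T ≤ S.map (· + v)) (hc : card T = 2 ^ k) : T.sum ≠ 0 := by
  obtain ⟨T₀, hT₀, rfl⟩ := exists_le_map _ S T hT
  rw [Multiset.card_map] at hc
  rw [Multiset.sum_map_add, Multiset.map_const', Multiset.sum_replicate, hc, Multiset.map_id']
  have h1 : (2 ^ k) • v = 0 := by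
    funext i
    rw [Pi.smul_apply, nsmul_eq_mul, ZMod.natCast_self, zero_mul]
    rfl
  rw [h1, add_zero]
  exact no_sub d k T₀ (hT₀.trans hS) hc

lemma card_true (d : ℕ) (i : Fin d) : 2 * Finset.card (Finset.univ.filter
    (fun b : Fin d → Bool => b i = true)) = 2 ^ d := by
  classical
  have h1 : Finset.card (Finset.univ.filter (fun b : Fin d → Bool => b i = true))
      = Finset.card (Finset.univ.filter (fun b : Fin d → Bool => ¬ b i = true)) := by
    refine Finset.card_bij' (fun b _ => Function.update b i false)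
      (fun b _ => Function.update b i true) ?_ ?_ ?_ ?_
    · intro b _; simp
    · intro b _; simp
    · intro b hb
      rw [Function.update_idem]
      have : b i = true := (Finset.mem_filter.mp hb).2
      rw [← this, Function.update_eq_self]
    · intro b hb
      rw [Function.update_idem]
      have : b i = false := by simpa using (Finset.mem_filter.mp hb).2
      rw [← this, Function.update_eq_self]
  have h2 := Finset.card_filter_add_card_filter_not (s := (Finset.univ : Finset (Fin d → Bool)))
    (fun b => b i = true)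
  rw [← h1, Finset.card_univ] at h2
  simp at h2
  omega

lemma sum_S0 (d k : ℕ) (hkd : k < d) : (S0 d k).sum = 0 := by
  funext i
  unfold S0
  rw [Multiset.map_nsmul, Multiset.sum_nsmul, Pi.smul_apply]
  have h1 : ((Finset.univ.val : Multiset (Fin d → Bool)).map (e (k := k))).sum i
      = ((Finset.card (Finset.univ.filter (fun b : Fin d → Bool => b i = true)) : ℕ) :
        ZMod (2 ^ k)) := by
    show (∑ b : Fin d → Bool, e b) i = _
    rw [Finset.sum_apply]
    simp only [e]
    rw [Finset.sum_ite, Finset.sum_const_zero, add_zero, Finset.sum_const, nsmul_eq_mul, mul_one]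
  have h2 := card_true d i
  have h3 : Finset.card (Finset.univ.filter (fun b : Fin d → Bool => b i = true))
      = 2 ^ k * 2 ^ (d - 1 - k) := by
    rw [← pow_add, show k + (d - 1 - k) = d - 1 by omega]
    obtain ⟨m, rfl⟩ : ∃ m, d = m + 1 := ⟨d - 1, by omega⟩
    rw [pow_succ] at h2
    simp only [Nat.add_sub_cancel]
    omega
  rw [h1, h3, Nat.cast_mul, ZMod.natCast_self, zero_mul, smul_zero]
  rfl

/-- Q1, affirmative. For `n = 2^k`, `d ≥ 1` and `ℓ` the least integer with `ℓ ≥ 2^d` and
`ℓ ∤ n`, the least `L` such that every zero-sum sequence over `(ℤ/n)^d` of length at least `L` has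
a zero-sum subsequence of length `n` exists and equals `2^d n - ℓ + 1`. -/
theorem result (k d : ℕ) (hd : 1 ≤ d) (ℓ : ℕ) (hℓ : IsLeast {l : ℕ | 2 ^ d ≤ l ∧ ¬ l ∣ 2 ^ k} ℓ) :
    ℓ ≤ 2 ^ d * 2 ^ k ∧
    IsLeast {L : ℕ | ∀ S : Multiset (Fin d → ZMod (2 ^ k)), L ≤ card S → S.sum = 0 →
      ∃ T ≤ S, card T = 2 ^ k ∧ T.sum = 0} (2 ^ d * 2 ^ k - ℓ + 1) := by
  have h2d : 2 ≤ 2 ^ d := by
    calc 2 = 2 ^ 1 := by norm_num
      _ ≤ 2 ^ d := Nat.pow_le_pow_right (by norm_num) hd
  have h2k : 1 ≤ 2 ^ k := Nat.one_le_two_pow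
  have hmul : (2 ^ k - 1) * 2 ^ d = 2 ^ d * 2 ^ k - 2 ^ d := by
    rw [Nat.sub_mul, one_mul, mul_comm]
  have hge : 2 ^ d ≤ 2 ^ d * 2 ^ k := Nat.le_mul_of_pos_right _ (by omega)
  rcases Nat.lt_or_ge k d with hkd | hkd
  · -- `ℓ = 2^d`
    have hl : ℓ = 2 ^ d := by
      apply le_antisymm _ hℓ.1.1
      apply hℓ.2
      refine ⟨le_refl _, fun h => ?_⟩
      have h1 := Nat.le_of_dvd (by positivity) h
      have h2 : 2 ^ k < 2 ^ d := Nat.pow_lt_pow_right (by norm_num) hkd
      omega
    subst hl
    refine ⟨hge, ?_, ?_⟩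
    · intro S hS _
      apply ZS_lft
      apply HB
      rw [Multiset.card_map]
      omega
    · intro L hL
      by_contra hcon
      push Not at hcon
      obtain ⟨T, hT, hc, hs⟩ := hL (S0 d k) (by rw [card_S0]; omega) (sum_S0 d k hkd)
      exact no_sub d k T hT hc hs
  · -- `ℓ = 2^d + 1`
    have hl : ℓ = 2 ^ d + 1 := by
      apply le_antisymm
      · apply hℓ.2
        refine ⟨by omega, fun h => ?_⟩
        obtain ⟨j, -, hj⟩ := (Nat.dvd_prime_pow Nat.prime_two).mp h
        have hodd : ¬ 2 ∣ 2 ^ d + 1 := by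
          obtain ⟨m, rfl⟩ : ∃ m, d = m + 1 := ⟨d - 1, by omega⟩
          rw [pow_succ]
          omega
        rcases Nat.eq_zero_or_pos j with h0 | h0
        · rw [h0] at hj; omega
        · apply hodd
          rw [hj]
          exact dvd_pow_self 2 (by omega)
      · have h1 := hℓ.1
        rcases Nat.eq_or_lt_of_le h1.1 with h | h
        · exfalso
          apply h1.2
          rw [← h]
          exact pow_dvd_pow 2 hkd
        · omega
    have h2k' : 2 ≤ 2 ^ k := by
      calc 2 = 2 ^ 1 := by norm_num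
        _ ≤ 2 ^ k := Nat.pow_le_pow_right (by norm_num) (by omega)
    have hge2 : 2 ^ d * 2 ≤ 2 ^ d * 2 ^ k := Nat.mul_le_mul_left _ h2k'
    subst hl
    refine ⟨by omega, ?_, ?_⟩
    · intro S hS hsum
      apply ZS_lft
      by_cases hcase : (2 ^ k - 1) * 2 ^ d + 1 ≤ card S
      · apply HB
        rw [Multiset.card_map]
        exact hcase
      · apply extremal_sum hd hkd
        · rw [Multiset.card_map]
          omega
        · intro x hx y hy h
          obtain ⟨x', -, rfl⟩ := Multiset.mem_map.mp hx
          obtain ⟨y', -, rfl⟩ := Multiset.mem_map.mp hy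
          congr 1
          funext i
          have h1 := (dvd_iff _).mp (h i)
          rw [Int.cast_sub, lft_cast, lft_cast, sub_eq_zero] at h1
          exact h1
        · intro i
          rw [dvd_iff, lft_sum, hsum]
          rfl
    · intro L hL
      by_contra hcon
      push Not at hcon
      have hpos : 0 < card (S0 d k) := by rw [card_S0]; omega
      obtain ⟨a, ha⟩ := Multiset.card_pos_iff_exists_mem.mp hpos
      have hcard : card ((S0 d k).erase a) = (2 ^ k - 1) * 2 ^ d - 1 := by
        rw [Multiset.card_erase_of_mem ha, card_S0]; rfl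
      have hcop : Nat.Coprime ((2 ^ k - 1) * 2 ^ d - 1) (2 ^ k) := by
        apply Nat.Coprime.pow_right
        rw [Nat.coprime_two_right, Nat.odd_iff, hmul]
        obtain ⟨m, rfl⟩ : ∃ m, d = m + 1 := ⟨d - 1, by omega⟩
        have e1 : 2 ^ (m + 1) * 2 ^ k = 2 * (2 ^ m * 2 ^ k) := by ring
        have e2 : 2 ^ (m + 1) = 2 * 2 ^ m := by ring
        have e3 : 2 * (2 ^ m * 2 ^ k) ≥ 2 * 2 ^ m * 2 := by
          rw [← e1, ← e2]; exact hge2
        have e4 : 1 ≤ 2 ^ m := Nat.one_le_two_pow
        omega
      obtain ⟨w, hw⟩ : ∃ w, w = ((S0 d k).erase a).sum := ⟨_, rfl⟩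
      let u := ZMod.unitOfCoprime _ hcop
      let v : Fin d → ZMod (2 ^ k) := fun i => (↑u⁻¹ : ZMod (2 ^ k)) * (- w i)
      obtain ⟨T, hT, hc, hs⟩ := hL (((S0 d k).erase a).map (· + v))
        (by rw [Multiset.card_map, hcard]; omega) (by
          rw [Multiset.sum_map_add, Multiset.map_const', Multiset.sum_replicate, hcard,
            Multiset.map_id', ← hw]
          funext i
          rw [Pi.add_apply, Pi.smul_apply, nsmul_eq_mul]
          have h1 : (((2 ^ k - 1) * 2 ^ d - 1 : ℕ) : ZMod (2 ^ k)) = (u : ZMod (2 ^ k)) := rfl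
          rw [h1]
          show w i + (u : ZMod (2 ^ k)) * ((↑u⁻¹ : ZMod (2 ^ k)) * (- w i)) = 0
          rw [← mul_assoc, Units.mul_inv, one_mul]
          ring)
      exact no_sub_shift d k _ (Multiset.erase_le _ _) v T hT hc hs

end Pool.Agent.Results.MP_4c442e_co.ModifiedEGZ
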